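import Pool.Agent.H43.Wat2
import Pool.Agent.H43.Wat4

namespace Pool.Agent.Results.MP_b91a69_an.Char

open Finset Filter Topology Pool.Agent.H43.Wat
open Set (InjOn)
open scoped ENNReal

/-- A Waterman sequence (indexed from `0`). -/
def IsLam (l : ℕ → ℝ) : Prop := Monotone l ∧ (∀ i, 0 < l i) ∧ ¬ Summable fun i => 1 / l i

/-- `[s i, t i]`, `i < n`, are non-overlapping subintervals of `[a, b]`. -/
def NonOv (a b : ℝ) {n : ℕ} (s t : Fin n → ℝ) : Prop :=
  (∀ i, a ≤ s i ∧ s i < t i ∧ t i ≤ b) ∧ ∀ i j, i ≠ j → t i ≤ s j ∨ t j ≤ s i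

/-- The Waterman variation of `f` on `[a, b]`. -/
noncomputable def var (a b : ℝ) (l : ℕ → ℝ) (f : ℝ → ℝ) : ℝ≥0∞ :=
  ⨆ (n : ℕ) (s : Fin n → ℝ) (t : Fin n → ℝ) (_ : NonOv a b s t),
    ENNReal.ofReal (∑ i : Fin n, |f (t i) - f (s i)| / l i)

/-- Bounded Waterman variation. -/
def BV (a b : ℝ) (l : ℕ → ℝ) (f : ℝ → ℝ) : Prop := var a b l f < ⊤

/-- Continuity in Waterman variation. -/
def BVc (a b : ℝ) (l : ℕ → ℝ) (f : ℝ → ℝ) : Prop :=
  BV a b l f ∧ Tendsto (fun m => var a b (fun i => l (i + m)) f) atTop (𝓝 0)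

/-- Partial sums of reciprocals. -/
noncomputable def ps (l : ℕ → ℝ) (n : ℕ) : ℝ := ∑ i ∈ range n, 1 / l i

lemma bridge {a b : ℝ} {l : ℕ → ℝ} (lm : Monotone l) (lp : ∀ i, 0 < l i) {f : ℝ → ℝ} {c : ℝ}
    (hc : 0 ≤ c) : var a b l f ≤ ENNReal.ofReal c ↔ Bd a b f l c := by
  classical
  simp only [var, iSup_le_iff, ENNReal.ofReal_le_ofReal_iff hc]
  constructor
  · intro h S r hS hr
    obtain ⟨x, ρ, hx, hρ, ha⟩ := sorting S fun p => -(r p : ℝ)
    have xinj : ∀ i < S.card, ∀ j < S.card, x i = x j → i = j := fun i hi j hj e => by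
      rw [← (hx i hi).2, e, (hx j hj).2]
    have hge : ∀ i < S.card, i ≤ r (x i) := by
      intro i hi
      induction i with
      | zero => exact Nat.zero_le _
      | succ i ih =>
        have h1 := ih (by omega)
        have h2 : r (x i) ≤ r (x (i + 1)) := by
          have := ha i (i + 1) (by omega) hi
          exact_mod_cast neg_le_neg_iff.1 this
        have h3 : r (x i) ≠ r (x (i + 1)) := fun e => by
          have := xinj i (by omega) (i + 1) hi (hr (hx i (by omega)).1 (hx _ hi).1 e)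
          omega
        omega
    refine le_trans ?_ (h S.card (fun i => (x i).1) (fun i => (x i).2)
      ⟨fun i => hS.1 _ (hx i i.2).1, fun i j hij => hS.2 _ (hx i i.2).1 _ (hx j j.2).1
        fun e => hij (Fin.ext (xinj i i.2 j j.2 e))⟩)
    rw [Fin.sum_univ_eq_sum_range (fun i => |f (x i).2 - f (x i).1| / l i)]
    have : W f l S r = ∑ i ∈ range S.card, val f (x i) / l (r (x i)) :=
      (sum_nbij' x ρ (fun i hi => (hx i (mem_range.1 hi)).1)
        (fun p hp => mem_range.2 (hρ p hp).1) (fun i hi => (hx i (mem_range.1 hi)).2)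
        (fun p hp => (hρ p hp).2) fun i _ => rfl).symm
    rw [this]
    exact sum_le_sum fun i hi =>
      div_le_div_of_nonneg_left (val_nonneg _ _) (lp _) (lm (hge i (mem_range.1 hi)))
  · intro h n s t hN
    let I : Fin n → ℝ × ℝ := fun i => (s i, t i)
    have hI : Function.Injective I := fun i j e => by
      by_contra hne
      have e1 : s i = s j := congrArg Prod.fst e
      have e2 : t i = t j := congrArg Prod.snd e
      rcases hN.2 i j hne with h | h <;> linarith [(hN.1 i).2.1]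
    let r : ℝ × ℝ → ℕ := Function.extend I Fin.val fun _ => 0
    have hr : ∀ i, r (I i) = i := fun i => hI.extend_apply _ _ i
    refine le_trans (le_of_eq ?_) (h (univ.image I) r ⟨fun p hp => ?_, fun p hp q hq hpq => ?_⟩ ?_)
    · unfold W
      rw [sum_image fun i _ j _ e => hI e]
      exact sum_congr rfl fun i _ => by rw [hr]; rfl
    · obtain ⟨i, -, rfl⟩ := mem_image.1 hp
      exact hN.1 i
    · obtain ⟨i, -, rfl⟩ := mem_image.1 hp
      obtain ⟨j, -, rfl⟩ := mem_image.1 hq
      exact hN.2 i j fun e => hpq (e ▸ rfl)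
    · intro p hp q hq e
      obtain ⟨i, -, rfl⟩ := mem_image.1 (mem_coe.1 hp)
      obtain ⟨j, -, rfl⟩ := mem_image.1 (mem_coe.1 hq)
      rw [hr, hr] at e; rw [Fin.ext e]

lemma Bd0 {a b : ℝ} {f : ℝ → ℝ} {l : ℕ → ℝ} {c : ℝ} (h : Bd a b f l c) : 0 ≤ c := by
  simpa [W] using h ∅ (fun _ => 0) ⟨by simp, by simp⟩ (by simp)

lemma unshift {a b : ℝ} {f : ℝ → ℝ} {g l : ℕ → ℝ} (gp : ∀ i, 0 < g i) (lm : Monotone l)
    (lp : ∀ i, 0 < l i) {V c : ℝ} (hV : Bd a b f g V) {m : ℕ}
    (h : Bd a b f (fun i => l (i + m)) c) : Bd a b f l (V * g 0 * PS l m + c) := by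
  classical
  intro S r hS hr
  have hB : ∀ p ∈ S, val f p ≤ V * g 0 := fun p hp => by
    have := hV {p} (fun _ => 0) (hS.mono (by simpa using hp)) (by simp)
    simp only [W, sum_singleton] at this
    exact (div_le_iff₀ (gp 0)).1 this
  unfold W
  rw [← sum_filter_add_sum_filter_not S fun p => r p < m]
  refine add_le_add ?_ ?_
  · have hi : InjOn r (S.filter fun p => r p < m) := hr.mono (by exact_mod_cast filter_subset _ _)
    have hc : (S.filter fun p => r p < m).card ≤ m := by
      have := card_le_card_of_injOn (t := range m) r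
        (fun p hp => mem_coe.2 (mem_range.2 (mem_filter.1 (mem_coe.1 hp)).2)) hi
      simpa using this
    have := part' (anti lm lp) (fun i => (one_div_pos.2 (lp i)).le) _ hi hc
    refine le_trans ?_ (mul_le_mul_of_nonneg_left this (mul_nonneg (Bd0 hV) (gp 0).le))
    rw [mul_sum]
    refine sum_le_sum fun p hp => ?_
    rw [mul_one_div]
    exact div_le_div_of_nonneg_right (hB p (mem_filter.1 hp).1) (lp _).le
  · refine le_trans (le_of_eq ?_) (h _ (fun p => r p - m)
      (hS.mono (filter_subset (fun p => ¬ r p < m) S)) fun p hp q hq e => ?_)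
    · refine sum_congr rfl fun p hp => ?_
      have := (mem_filter.1 hp).2
      simp only [Nat.sub_add_cancel (not_lt.1 this)]
    · have h1 := mem_filter.1 (mem_coe.1 hp)
      have h2 := mem_filter.1 (mem_coe.1 hq)
      refine hr h1.1 h2.1 ?_
      have := h1.2; have := h2.2
      simp only at e; omega

theorem result (a b : ℝ) (hab : a < b) (g l : ℕ → ℝ) (hg : IsLam g) (hl : IsLam l) :
    (∀ f : ℝ → ℝ, BV a b g f → BVc a b l f) ↔
      ∀ δ > (0 : ℝ), ∃ K : ℕ, 0 < K ∧ ∀ n : ℕ, ps l (K * n) ≤ δ * K * ps g n := by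
  obtain ⟨gm, gp, gs⟩ := hg
  obtain ⟨lm, lp, -⟩ := hl
  have sm : ∀ m, Monotone fun i => l (i + m) := fun m _ _ h => lm (by omega)
  constructor
  · intro h δ hδ
    by_contra hno
    push Not at hno
    obtain ⟨f, V, hV, η, hη, hm⟩ := nec hab gm gp lm lp hδ hno
    have h1 := (h f (((bridge gm gp (Bd0 hV)).2 hV).trans_lt ENNReal.ofReal_lt_top)).2
    obtain ⟨m, h2⟩ := (h1.eventually (ge_mem_nhds (ENNReal.ofReal_pos.2 hη))).exists
    exact hm m ((bridge (sm m) (fun _ => lp _) hη.le).1 h2)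
  · intro h f hf
    have gt : Tendsto (PS g) atTop atTop :=
      (not_summable_iff_tendsto_nat_atTop_of_nonneg fun i => (one_div_pos.2 (gp i)).le).1 gs
    have hV : Bd a b f g (var a b g f).toReal :=
      (bridge gm gp ENNReal.toReal_nonneg).1 (ENNReal.ofReal_toReal hf.ne).ge
    constructor
    · obtain ⟨m, hm⟩ := suff gm gp lm lp gt h hV one_pos
      have := unshift gp lm lp hV hm
      exact ((bridge lm lp (Bd0 this)).2 this).trans_lt ENNReal.ofReal_lt_top
    · refine ENNReal.tendsto_nhds_zero.2 fun ε hε => ?_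
      obtain ⟨η, -, h1, h2⟩ := ENNReal.lt_iff_exists_real_btwn.1 hε
      have hη := ENNReal.ofReal_pos.1 h1
      obtain ⟨m, hm⟩ := suff gm gp lm lp gt h hV hη
      filter_upwards [eventually_ge_atTop m] with k hk
      refine le_trans ((bridge (sm k) (fun _ => lp _) hη.le).2 fun S r hS hr => ?_) h2.le
      exact le_trans (sum_le_sum fun p _ =>
        div_le_div_of_nonneg_left (val_nonneg _ _) (lp _) (lm (by omega))) (hm S r hS hr)

end Pool.Agent.Results.MP_b91a69_an.Char
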